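import Pool.Agent.W611.RO.Stms
import Pool.Agent.H712R5.BO.B2
import Pool.Agent.H712R5.BO.B2a
import Pool.Agent.H712R5.BO.B1

/-!
Derivatives of the trace of the logarithm.
-/

set_option autoImplicit false
open scoped ComplexConjugate InnerProductSpace Topology
open Filter MeasureTheory NormedSpace

namespace Pool.Agent.W636.RO
open Pool.Agent.H712R5.BO

theorem unit_of_spec {A : Type} [CStarAlgebra A] {a : A} {δ : ℝ} (hδ : 0 < δ)
    (h : spectrum ℝ a ⊆ Set.Ici δ) : IsUnit a := by
  apply spectrum.isUnit_of_zero_notMem (R := ℝ)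
  intro h0
  have := h h0
  exact absurd hδ (not_lt.2 this)

theorem t_M1 : Pool.Agent.W611.RO.P_M1 := by
  intro A _ τ hτ γ γ' γ'' δ hδ hγ hγ' hsp t
  have : Nontrivial A := ⟨1, 0, fun h => by
    have h1 := hτ.one
    rw [h, map_zero] at h1
    exact zero_ne_one h1⟩
  constructor
  · have hγc : Continuous γ := continuous_iff_continuousAt.2 fun s => (hγ s).continuousAt
    have hγc' : Continuous γ' := continuous_iff_continuousAt.2 fun s => (hγ' s).continuousAt
    obtain ⟨b, hb⟩ := (isCompact_Icc (a := t - 1) (b := t + 1)).exists_bound_of_continuousOn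
      hγc.continuousOn
    obtain ⟨R, hR⟩ := (isCompact_Icc (a := t - 1) (b := t + 1)).exists_bound_of_continuousOn
      hγc'.continuousOn
    have hspec : ∀ s ∈ Set.Ioo (t - 1) (t + 1), IsSelfAdjoint (γ s) ∧
        spectrum ℝ (γ s) ⊆ Set.Icc δ b := by
      intro s hs
      refine ⟨(hsp s).1, fun x hx => ⟨(hsp s).2 hx, ?_⟩⟩
      have h1 := spectrum.norm_le_norm_of_mem hx
      exact (le_abs_self x).trans (h1.trans (hb s ⟨hs.1.le, hs.2.le⟩))
    have h := t_B2 t_B2a t_B1 A τ hτ γ γ' (t - 1) (t + 1) δ b hδ (fun s _ => hγ s)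
      hγc'.continuousOn hspec ⟨R, fun s hs => hR s ⟨hs.1.le, hs.2.le⟩⟩ Real.log (fun x => x⁻¹)
      (fun x hx => Real.hasDerivAt_log hx.ne')
      (continuousOn_id.inv₀ fun x hx => (show 0 < x from hx).ne') t ⟨by linarith, by linarith⟩
    obtain ⟨u, hu⟩ := unit_of_spec hδ (hsp t).2
    have e : cfc (fun x : ℝ => x⁻¹) (γ t) = Ring.inverse (γ t) := by
      rw [← hu, Ring.inverse_unit]
      exact cfc_inv_id u (by rw [hu]; exact (hsp t).1)
    rw [e] at h
    exact (Complex.reCLM.hasFDerivAt).comp_hasDerivAt t h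
  · obtain ⟨u, hu⟩ := unit_of_spec hδ (hsp t).2
    have h1 : HasFDerivAt (Ring.inverse : A → A)
        (-ContinuousLinearMap.mulLeftRight ℝ A ↑u⁻¹ ↑u⁻¹) (γ t) := by
      rw [← hu]
      exact hasFDerivAt_ringInverse u
    have h2 := (h1.comp_hasDerivAt t (hγ t)).mul (hγ' t)
    have h3 := (τ.restrictScalars ℝ).hasFDerivAt.comp_hasDerivAt t h2
    have h4 := (Complex.reCLM.hasFDerivAt).comp_hasDerivAt t h3
    refine h4.congr_deriv ?_
    have e : (↑u⁻¹ : A) = Ring.inverse (γ t) := by rw [← hu, Ring.inverse_unit]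
    simp only [Function.comp_apply, _root_.neg_apply,
      ContinuousLinearMap.mulLeftRight_apply, e, ContinuousLinearMap.coe_restrictScalars',
      Complex.reCLM_apply, map_add, neg_mul, map_neg]
    ring

end Pool.Agent.W636.RO
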